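import Mathlib

/-!
# MP_a1b8b7_co, part (A2): rounding and triangle removal

`A2`: for every `ε > 0` there is `η > 0` such that for every graph `G` on `n` vertices and all
weights `w ≥ 0` of the pairs with total defect `∑ (1 - w(T))⁺ ≤ η n³` (sum over the ordered
triangles of `G`) there are weights `w'` with `w'(T) ≥ 1` for all triangles `T` of `G` and
`∑ w' ≤ ∑ w + ε n²`.
-/

set_option autoImplicit false

open Finset SimpleGraph

namespace Pool.Agent.MP_a1b8b7_co.A2Aux

universe u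
variable {V : Type u}

/-- The tripartite graph with parts `{i} × V`, edges between part `i` and part `i + 1` given by
`E i`. -/
def tri3 (E : Fin 3 → Sym2 V → Prop) : SimpleGraph (Fin 3 × V) where
  Adj x y := (y.1 = x.1 + 1 ∧ E x.1 s(x.2, y.2)) ∨ (x.1 = y.1 + 1 ∧ E y.1 s(x.2, y.2))
  symm := ⟨by
    intro x y h
    rcases h with ⟨h1, h2⟩ | ⟨h1, h2⟩
    · exact Or.inr ⟨h1, by rw [Sym2.eq_swap]; exact h2⟩
    · exact Or.inl ⟨h1, by rw [Sym2.eq_swap]; exact h2⟩⟩
  loopless := ⟨by
    rintro ⟨i, u⟩ h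
    rcases h with ⟨h1, -⟩ | ⟨h1, -⟩ <;> revert h1 <;> fin_cases i <;> simp⟩

theorem tri3_adj (E : Fin 3 → Sym2 V → Prop) (i : Fin 3) (u v : V) :
    (tri3 E).Adj (i, u) (i + 1, v) ↔ E i s(u, v) := by
  constructor
  · rintro (⟨-, h⟩ | ⟨h, -⟩)
    · exact h
    · exfalso
      revert h
      fin_cases i <;> simp
  · intro h
    exact Or.inl ⟨rfl, h⟩

theorem tri3_part (E : Fin 3 → Sym2 V → Prop) {x y : Fin 3 × V} (h : (tri3 E).Adj x y) :
    x.1 ≠ y.1 := by
  rcases h with ⟨h1, -⟩ | ⟨h1, -⟩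
  · rw [h1]
    generalize x.1 = i
    fin_cases i <;> simp
  · rw [h1]
    generalize y.1 = i
    fin_cases i <;> simp

variable [Fintype V] [DecidableEq V]

/-- every triangle of `tri3 E` comes from a triple -/
theorem tri3_clique (E : Fin 3 → Sym2 V → Prop) [DecidableRel (tri3 E).Adj]
    [∀ i e, Decidable (E i e)] :
    (tri3 E).cliqueFinset 3 ⊆
      ((univ : Finset (V × V × V)).filter
        (fun t => E 0 s(t.1, t.2.1) ∧ E 1 s(t.2.1, t.2.2) ∧ E 2 s(t.2.2, t.1))).image
        (fun t => {((0 : Fin 3), t.1), ((1 : Fin 3), t.2.1), ((2 : Fin 3), t.2.2)}) := by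
  intro S hS
  rw [mem_cliqueFinset_iff] at hS
  obtain ⟨x, y, z, hxy, hxz, hyz, rfl⟩ := is3Clique_iff.1 hS
  have h1 := tri3_part E hxy
  have h2 := tri3_part E hxz
  have h3 := tri3_part E hyz
  obtain ⟨i, u⟩ := x
  obtain ⟨j, v⟩ := y
  obtain ⟨k, w⟩ := z
  simp only at h1 h2 h3
  have key : ∀ a b c : V, (tri3 E).Adj (0, a) (1, b) → (tri3 E).Adj (1, b) (2, c) →
      (tri3 E).Adj (2, c) (0, a) →
      ({((0 : Fin 3), a), ((1 : Fin 3), b), ((2 : Fin 3), c)} : Finset (Fin 3 × V)) ∈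
      ((univ : Finset (V × V × V)).filter
        (fun t => E 0 s(t.1, t.2.1) ∧ E 1 s(t.2.1, t.2.2) ∧ E 2 s(t.2.2, t.1))).image
        (fun t => {((0 : Fin 3), t.1), ((1 : Fin 3), t.2.1), ((2 : Fin 3), t.2.2)}) := by
    intro a b c hab hbc hca
    refine mem_image.2 ⟨(a, b, c), ?_, rfl⟩
    simp only [mem_filter, mem_univ, true_and]
    exact ⟨(tri3_adj E 0 a b).1 hab, (tri3_adj E 1 b c).1 hbc, (tri3_adj E 2 c a).1 hca⟩
  fin_cases i <;> fin_cases j <;> fin_cases k <;> simp at h1 h2 h3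
  · exact key u v w hxy hyz hxz.symm
  · have := key u w v hxz hyz.symm hxy.symm
    convert this using 1
    ext t; simp; tauto
  · have := key v u w hxy.symm hxz hyz.symm
    convert this using 1
    ext t; simp; tauto
  · have := key w u v hxz.symm hxy hyz
    convert this using 1
    ext t; simp; tauto
  · have := key v w u hyz hxz.symm hxy
    convert this using 1
    ext t; simp; tauto
  · have := key w v u hyz.symm hxy.symm hxz
    convert this using 1
    ext t; simp; tauto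

/-- triangle removal for the three relations `E 0, E 1, E 2` -/
theorem rem (E : Fin 3 → Sym2 V → Prop) [∀ i e, Decidable (E i e)] (ε : ℝ)
    (h : (((univ : Finset (V × V × V)).filter
        (fun t => E 0 s(t.1, t.2.1) ∧ E 1 s(t.2.1, t.2.2) ∧ E 2 s(t.2.2, t.1))).card : ℝ) <
        triangleRemovalBound ε * (3 * (Fintype.card V : ℝ)) ^ 3) :
    ∃ S : Finset (Sym2 V), (S.card : ℝ) ≤ ε * (3 * (Fintype.card V : ℝ)) ^ 2 ∧
      ∀ a b c, E 0 s(a, b) → E 1 s(b, c) → E 2 s(c, a) →
        s(a, b) ∈ S ∨ s(b, c) ∈ S ∨ s(c, a) ∈ S := by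
  classical
  have hcard : (Fintype.card (Fin 3 × V) : ℝ) = 3 * (Fintype.card V : ℝ) := by
    rw [Fintype.card_prod, Fintype.card_fin]; push_cast; ring
  have h1 : (((tri3 E).cliqueFinset 3).card : ℝ) <
      triangleRemovalBound ε * (Fintype.card (Fin 3 × V) : ℝ) ^ 3 := by
    rw [hcard]
    refine lt_of_le_of_lt ?_ h
    exact_mod_cast (card_le_card (tri3_clique E)).trans card_image_le
  obtain ⟨G', hle, hdec, hcnt, hfree⟩ := triangle_removal h1
  refine ⟨((tri3 E).edgeFinset \ G'.edgeFinset).image (Sym2.map Prod.snd), ?_, ?_⟩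
  · have h2 : ((((tri3 E).edgeFinset \ G'.edgeFinset).image (Sym2.map Prod.snd)).card : ℝ) ≤
        (((tri3 E).edgeFinset \ G'.edgeFinset).card : ℝ) := by
      exact_mod_cast card_image_le
    refine h2.trans ?_
    rw [card_sdiff_of_subset (edgeFinset_mono hle), Nat.cast_sub (card_le_card (edgeFinset_mono hle))]
    refine hcnt.le.trans (le_of_eq ?_)
    push_cast
    rw [hcard]
  · intro a b c hab hbc hca
    by_contra hcon
    push Not at hcon
    obtain ⟨n1, n2, n3⟩ := hcon
    have key : ∀ (i : Fin 3) (u v : V), E i s(u, v) →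
        s(u, v) ∉ ((tri3 E).edgeFinset \ G'.edgeFinset).image (Sym2.map Prod.snd) →
        G'.Adj (i, u) (i + 1, v) := by
      intro i u v hE hn
      by_contra hG'
      refine hn (mem_image.2 ⟨s((i, u), (i + 1, v)), ?_, rfl⟩)
      rw [mem_sdiff, mem_edgeFinset, mem_edgeFinset, mem_edgeSet, mem_edgeSet]
      exact ⟨(tri3_adj E i u v).2 hE, hG'⟩
    have k1 := key 0 a b hab n1
    have k2 := key 1 b c hbc n2
    have k3 := key 2 c a hca n3
    exact hfree {((0 : Fin 3), a), ((1 : Fin 3), b), ((2 : Fin 3), c)}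
      (is3Clique_triple_iff.2 ⟨k1, k3.symm, k2⟩)

end Pool.Agent.MP_a1b8b7_co.A2Aux

namespace Pool.Agent.MP_a1b8b7_co

open A2Aux

universe u

/-- **(A2)** rounding and triangle removal. -/
theorem A2 (ε : ℝ) (hε : 0 < ε) : ∃ η : ℝ, 0 < η ∧ ∀ (V : Type u) [Fintype V] [DecidableEq V]
    (G : SimpleGraph V) [DecidableRel G.Adj] (w : Sym2 V → ℝ), (∀ e, 0 ≤ w e) →
    ∑ t ∈ (univ : Finset (V × V × V)).filter
      (fun t => G.Adj t.1 t.2.1 ∧ G.Adj t.2.1 t.2.2 ∧ G.Adj t.2.2 t.1),
      max 0 (1 - (w s(t.1, t.2.1) + w s(t.2.1, t.2.2) + w s(t.2.2, t.1))) ≤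
        η * (Fintype.card V : ℝ) ^ 3 →
    ∃ w' : Sym2 V → ℝ, (∀ e, 0 ≤ w' e) ∧ (∀ e, w' e ≤ 1) ∧
      (∀ a b c, G.Adj a b → G.Adj b c → G.Adj c a →
        1 ≤ w' s(a, b) + w' s(b, c) + w' s(c, a)) ∧
      ∀ F : Finset (Sym2 V), ∑ e ∈ F, w' e ≤ ∑ e ∈ F, w e + ε * (Fintype.card V : ℝ) ^ 2 := by
  classical
  set k : ℕ := ⌈2 / ε⌉₊ with hk
  have hk1 : 2 / ε ≤ k := Nat.le_ceil _
  have hk0 : (0 : ℝ) < k := lt_of_lt_of_le (by positivity) hk1
  have hkε : 1 / (k : ℝ) ≤ ε / 2 := by
    rw [div_le_iff₀ hk0]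
    rw [div_le_iff₀ hε] at hk1
    linarith
  set ε' : ℝ := ε / (18 * (k : ℝ) ^ 3) with hε'
  have hε'0 : 0 < ε' := by positivity
  have hb := triangleRemovalBound_pos hε'0
  refine ⟨triangleRemovalBound ε' / k, by positivity, ?_⟩
  intro V _ _ G _ w hw hdef
  rcases isEmpty_or_nonempty V with hV | hV
  · refine ⟨fun _ => 0, fun _ => le_rfl, fun _ => zero_le_one, fun a => (hV.false a).elim, ?_⟩
    intro F
    have : F = ∅ := by
      refine Finset.eq_empty_of_forall_notMem ?_
      intro e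
      induction e using Sym2.ind with
      | _ a b => exact (hV.false a).elim
    subst this
    simp
  have hn : (0 : ℝ) < (Fintype.card V : ℝ) := by exact_mod_cast Fintype.card_pos
  set n : ℝ := (Fintype.card V : ℝ) with hndef
  set l : Sym2 V → ℕ := fun e => ⌈(k : ℝ) * w e⌉₊ with hl
  have hl1 : ∀ e, (k : ℝ) * w e ≤ l e := fun e => Nat.le_ceil _
  have hl2 : ∀ e, (l e : ℝ) < (k : ℝ) * w e + 1 :=
    fun e => Nat.ceil_lt_add_one (mul_nonneg hk0.le (hw e))
  -- the bad ordered triangles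
  set B : Finset (V × V × V) := (univ : Finset (V × V × V)).filter
      (fun t => (G.Adj t.1 t.2.1 ∧ G.Adj t.2.1 t.2.2 ∧ G.Adj t.2.2 t.1) ∧
        l s(t.1, t.2.1) + l s(t.2.1, t.2.2) + l s(t.2.2, t.1) < k) with hB
  have hBcard : (B.card : ℝ) ≤ triangleRemovalBound ε' * n ^ 3 := by
    have h1 : (B.card : ℝ) * (1 / k) ≤ ∑ t ∈ B,
        max 0 (1 - (w s(t.1, t.2.1) + w s(t.2.1, t.2.2) + w s(t.2.2, t.1))) := by
      rw [← nsmul_eq_mul]
      refine card_nsmul_le_sum _ _ _ ?_
      intro t ht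
      rw [hB, mem_filter] at ht
      obtain ⟨-, -, hlt⟩ := ht
      refine le_trans ?_ (le_max_right _ _)
      have e1 := hl1 s(t.1, t.2.1)
      have e2 := hl1 s(t.2.1, t.2.2)
      have e3 := hl1 s(t.2.2, t.1)
      have hlt' : ((l s(t.1, t.2.1) : ℝ) + l s(t.2.1, t.2.2) + l s(t.2.2, t.1)) + 1 ≤ k := by
        exact_mod_cast hlt
      have : (k : ℝ) * (w s(t.1, t.2.1) + w s(t.2.1, t.2.2) + w s(t.2.2, t.1)) + 1 ≤ k := by
        nlinarith
      rw [div_le_iff₀ hk0]
      nlinarith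
    have h2 : ∑ t ∈ B,
        max 0 (1 - (w s(t.1, t.2.1) + w s(t.2.1, t.2.2) + w s(t.2.2, t.1))) ≤
        ∑ t ∈ (univ : Finset (V × V × V)).filter
      (fun t => G.Adj t.1 t.2.1 ∧ G.Adj t.2.1 t.2.2 ∧ G.Adj t.2.2 t.1),
      max 0 (1 - (w s(t.1, t.2.1) + w s(t.2.1, t.2.2) + w s(t.2.2, t.1))) := by
      refine sum_le_sum_of_subset_of_nonneg ?_ (fun _ _ _ => le_max_left _ _)
      intro t ht
      rw [hB, mem_filter] at ht
      rw [mem_filter]
      exact ⟨ht.1, ht.2.1⟩
    have h3 := (h1.trans h2).trans hdef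
    have h4 : (B.card : ℝ) * (1 / k) * k ≤ triangleRemovalBound ε' / k * n ^ 3 * k :=
      mul_le_mul_of_nonneg_right h3 hk0.le
    have e1 : (B.card : ℝ) * (1 / k) * k = B.card := by field_simp
    have e2 : triangleRemovalBound ε' / k * n ^ 3 * k = triangleRemovalBound ε' * n ^ 3 := by
      field_simp
    rw [e1, e2] at h4
    exact h4
  -- removal for every triple of levels
  have hrem : ∀ p : ℕ × ℕ × ℕ, ∃ S : Finset (Sym2 V),
      (S.card : ℝ) ≤ ε' * (3 * n) ^ 2 ∧ (p.1 + p.2.1 + p.2.2 < k →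
      ∀ a b c, G.Adj a b → G.Adj b c → G.Adj c a → l s(a, b) = p.1 → l s(b, c) = p.2.1 →
        l s(c, a) = p.2.2 → s(a, b) ∈ S ∨ s(b, c) ∈ S ∨ s(c, a) ∈ S) := by
    intro p
    by_cases hp : p.1 + p.2.1 + p.2.2 < k
    · set E : Fin 3 → Sym2 V → Prop := fun i e => e ∈ G.edgeSet ∧ l e = (![p.1, p.2.1, p.2.2]) i
        with hE
      obtain ⟨S, hS1, hS2⟩ := rem E ε' (by
        refine lt_of_le_of_lt (b := (B.card : ℝ)) ?_ ?_
        · exact_mod_cast card_le_card (by
            intro t ht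
            rw [mem_filter] at ht
            rw [hB, mem_filter]
            obtain ⟨-, ⟨a1, b1⟩, ⟨a2, b2⟩, ⟨a3, b3⟩⟩ := ht
            refine ⟨mem_univ _, ⟨a1, a2, a3⟩, ?_⟩
            rw [b1, b2, b3]
            exact hp)
        · refine lt_of_le_of_lt hBcard ?_
          have : n ^ 3 < (3 * n) ^ 3 := by
            have : 0 < n ^ 3 := by positivity
            nlinarith
          exact mul_lt_mul_of_pos_left this hb)
      refine ⟨S, hS1, fun _ a b c hab hbc hca l1 l2 l3 => hS2 a b c ⟨hab, l1⟩ ⟨hbc, l2⟩ ⟨hca, l3⟩⟩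
    · refine ⟨∅, ?_, fun h => absurd h hp⟩
      simp only [card_empty, Nat.cast_zero]
      positivity
  choose S hS1 hS2 using hrem
  set T : Finset (Sym2 V) := (range k ×ˢ (range k ×ˢ range k)).biUnion S with hT
  have hTcard : (T.card : ℝ) ≤ ε / 2 * n ^ 2 := by
    have h1 : (T.card : ℝ) ≤ ∑ p ∈ range k ×ˢ (range k ×ˢ range k), ((S p).card : ℝ) := by
      exact_mod_cast card_biUnion_le
    have h2 : ∑ p ∈ range k ×ˢ (range k ×ˢ range k), ((S p).card : ℝ) ≤
        ((range k ×ˢ (range k ×ˢ range k)).card : ℝ) * (ε' * (3 * n) ^ 2) := by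
      rw [← nsmul_eq_mul]
      exact sum_le_card_nsmul _ _ _ (fun p _ => hS1 p)
    refine (h1.trans h2).trans (le_of_eq ?_)
    rw [card_product, card_product, card_range, hε']
    push_cast
    field_simp
    ring
  refine ⟨fun e => if e ∈ T then 1 else min 1 ((l e : ℝ) / k), ?_, ?_, ?_, ?_⟩
  · intro e
    by_cases he : e ∈ T
    · simp [he]
    · simp only [he, if_false]
      positivity
  · intro e
    by_cases he : e ∈ T
    · simp [he]
    · simp only [he, if_false]
      exact min_le_left _ _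
  · intro a b c hab hbc hca
    have hnn : ∀ e : Sym2 V, (0 : ℝ) ≤ if e ∈ T then 1 else min 1 ((l e : ℝ) / k) := by
      intro e
      by_cases he : e ∈ T
      · simp [he]
      · simp only [he, if_false]
        positivity
    have n1 := hnn s(a, b)
    have n2 := hnn s(b, c)
    have n3 := hnn s(c, a)
    by_cases h1 : s(a, b) ∈ T
    · simp only [h1, if_true] at n1 ⊢
      linarith
    by_cases h2 : s(b, c) ∈ T
    · simp only [h2, if_true] at n2 ⊢
      linarith
    by_cases h3 : s(c, a) ∈ T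
    · simp only [h3, if_true] at n3 ⊢
      linarith
    simp only [h1, h2, h3, if_false] at n1 n2 n3 ⊢
    have hge : k ≤ l s(a, b) + l s(b, c) + l s(c, a) := by
      by_contra hlt
      push Not at hlt
      have hmem : (l s(a, b), l s(b, c), l s(c, a)) ∈ range k ×ˢ (range k ×ˢ range k) := by
        simp only [mem_product, mem_range]
        omega
      have sub : S (l s(a, b), l s(b, c), l s(c, a)) ⊆ T := by
        intro e he
        exact mem_biUnion.2 ⟨_, hmem, he⟩
      rcases hS2 (l s(a, b), l s(b, c), l s(c, a)) hlt a b c hab hbc hca rfl rfl rfl with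
        h | h | h
      · exact h1 (sub h)
      · exact h2 (sub h)
      · exact h3 (sub h)
    rcases le_total 1 ((l s(a, b) : ℝ) / k) with g1 | g1
    · rw [min_eq_left g1] at n1 ⊢
      linarith
    rcases le_total 1 ((l s(b, c) : ℝ) / k) with g2 | g2
    · rw [min_eq_left g2] at n2 ⊢
      linarith
    rcases le_total 1 ((l s(c, a) : ℝ) / k) with g3 | g3
    · rw [min_eq_left g3] at n3 ⊢
      linarith
    rw [min_eq_right g1, min_eq_right g2, min_eq_right g3, ← add_div, ← add_div, le_div_iff₀ hk0,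
      one_mul]
    exact_mod_cast hge
  · intro F
    have h1 : ∑ e ∈ F, (if e ∈ T then (1 : ℝ) else min 1 ((l e : ℝ) / k)) ≤
        ∑ e ∈ F, (w e + 1 / k + if e ∈ T then (1 : ℝ) else 0) := by
      refine sum_le_sum fun e _ => ?_
      have hle : (l e : ℝ) / k ≤ w e + 1 / k := by
        rw [div_le_iff₀ hk0]
        have := (hl2 e).le
        have e1 : (w e + 1 / k) * k = k * w e + 1 := by field_simp
        rw [e1]
        exact this
      by_cases he : e ∈ T
      · simp only [he, if_true]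
        have := hw e
        have : (0 : ℝ) ≤ 1 / k := by positivity
        linarith
      · simp only [he, if_false, add_zero]
        exact (min_le_right _ _).trans hle
    refine h1.trans ?_
    rw [sum_add_distrib, sum_add_distrib, sum_const, nsmul_eq_mul]
    have h2 : ∑ e ∈ F, (if e ∈ T then (1 : ℝ) else 0) ≤ (T.card : ℝ) := by
      rw [sum_ite, sum_const_zero, add_zero, sum_const, nsmul_eq_mul, mul_one]
      exact_mod_cast card_le_card (by
        intro e he
        exact (mem_filter.1 he).2)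
    have h3 : (F.card : ℝ) ≤ n ^ 2 := by
      have h4 : F.card ≤ Fintype.card (Sym2 V) := card_le_univ F
      have h5 : Fintype.card (Sym2 V) ≤ Fintype.card V ^ 2 := by
        have hq : Fintype.card (Sym2 V) ≤ Fintype.card (V × V) :=
          Fintype.card_le_of_surjective (fun p : V × V => s(p.1, p.2)) (by
            intro e
            induction e using Sym2.ind with
            | _ a b => exact ⟨(a, b), rfl⟩)
        rw [Fintype.card_prod] at hq
        rw [sq]
        exact hq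
      rw [hndef]
      exact_mod_cast h4.trans h5
    have h6 : (F.card : ℝ) * (1 / k) ≤ n ^ 2 * (ε / 2) :=
      mul_le_mul h3 hkε (by positivity) (by positivity)
    nlinarith

end Pool.Agent.MP_a1b8b7_co
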